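import Pool.Graph.R_seed8.R122.TD.Bridge

set_option autoImplicit false
set_option linter.unusedSectionVars false

/-!
Elimination forests with prescribed local depths for graphs of bounded 2-treedepth.
-/

namespace Pool.Agent.KS6_98.TDw

open Pool.Agent.R122.TD

variable {V : Type*} [DecidableEq V] {G : SimpleGraph V}

/-- an induced path gives an induced embedding of the path graph with the same ends -/
theorem IP_emb {S : Finset V} {a b : V} {n : ℕ} (hp : IP G S a b n) :
    ∃ f : SimpleGraph.pathGraph (n + 1) ↪g G, f 0 = a ∧ f (Fin.last n) = b := by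
  obtain ⟨f, h0, h1, h2, h3, h4, h5⟩ := hp
  have hadj : ∀ i j : ℕ, i < j → j ≤ n → (G.Adj (f i) (f j) ↔ i + 1 = j) := by
    intro i j hij hj
    constructor
    · intro hA
      by_contra hne
      exact h5 i j (by omega) hj hA
    · intro hA
      subst hA
      exact h4 i (by omega)
  refine ⟨⟨⟨fun i => f i.1, ?_⟩, ?_⟩, h0, h1⟩
  · intro i j hij
    have hi := i.isLt
    have hj := j.isLt
    by_contra hne
    have hne' : i.1 ≠ j.1 := fun h => hne (Fin.ext h)
    rcases Nat.lt_or_gt_of_ne hne' with h | h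
    · exact h3 i.1 j.1 h (by omega) hij
    · exact h3 j.1 i.1 h (by omega) hij.symm
  · intro i j
    have hi := i.isLt
    have hj := j.isLt
    rw [SimpleGraph.pathGraph_adj]
    show G.Adj (f i.1) (f j.1) ↔ _
    rcases Nat.lt_trichotomy i.1 j.1 with h | h | h
    · rw [hadj _ _ h (by omega)]
      constructor
      · exact Or.inl
      · rintro (h' | h')
        · exact h'
        · omega
    · rw [h]
      constructor
      · intro h'; exact absurd h' (G.loopless.irrefl _)
      · omega
    · rw [G.adj_comm, hadj _ _ h (by omega)]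
      constructor
      · exact Or.inr
      · rintro (h' | h')
        · omega
        · exact h'

/-- `le` is the ancestor relation of an elimination forest of `G[S]` -/
structure Forest (G : SimpleGraph V) (S : Finset V) (le : V → V → Prop) : Prop where
  mem : ∀ u v, le u v → u ∈ S ∧ v ∈ S
  refl : ∀ v ∈ S, le v v
  trans : ∀ u v w, le u v → le v w → le u w
  antisymm : ∀ u v, le u v → le v u → u = v
  chain : ∀ u u' v, le u v → le u' v → le u u' ∨ le u' u
  adj : ∀ u ∈ S, ∀ v ∈ S, G.Adj u v → le u v ∨ le v u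

theorem Forest.finite {S : Finset V} {le : V → V → Prop} (h : Forest G S le) (v : V) :
    {u | le u v}.Finite :=
  S.finite_toSet.subset fun _ hu => (h.mem _ _ hu).1

theorem exists_forest {β : V → ℕ} {S : Finset V} (h : El G β S) :
    ∃ le : V → V → Prop, Forest G S le ∧ ∀ v ∈ S, {u | le u v}.ncard ≤ β v := by
  induction h with
  | nil β =>
    refine ⟨fun _ _ => False, ⟨?_, ?_, ?_, ?_, ?_, ?_⟩, ?_⟩ <;> simp
  | rem β S v hv hpos h ih =>
    obtain ⟨le', hF, hc⟩ := ih
    have hnv : ∀ u, ¬ le' u v := fun u hu => by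
      have := (hF.mem _ _ hu).2
      simp at this
    have hnv' : ∀ u, ¬ le' v u := fun u hu => by
      have := (hF.mem _ _ hu).1
      simp at this
    have hS : ∀ x, x ∈ S.erase v → x ∈ S := fun x hx => Finset.mem_of_mem_erase hx
    refine ⟨fun x y => (x = v ∧ y ∈ S) ∨ le' x y, ⟨?_, ?_, ?_, ?_, ?_, ?_⟩, ?_⟩
    · rintro x y (⟨rfl, hy⟩ | hxy)
      · exact ⟨hv, hy⟩
      · exact ⟨hS _ (hF.mem _ _ hxy).1, hS _ (hF.mem _ _ hxy).2⟩
    · intro x hx
      by_cases hxv : x = v
      · exact Or.inl ⟨hxv, hx⟩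
      · exact Or.inr (hF.refl x (Finset.mem_erase.2 ⟨hxv, hx⟩))
    · rintro x y z (⟨rfl, hy⟩ | hxy) (⟨rfl, hz⟩ | hyz)
      · exact Or.inl ⟨rfl, hz⟩
      · exact Or.inl ⟨rfl, hS _ (hF.mem _ _ hyz).2⟩
      · exact absurd hxy (hnv x)
      · exact Or.inr (hF.trans _ _ _ hxy hyz)
    · rintro x y (⟨rfl, hy⟩ | hxy) (⟨h1, hx⟩ | hyx)
      · exact h1.symm
      · exact absurd hyx (hnv y)
      · exact absurd hxy (h1 ▸ hnv x)
      · exact hF.antisymm _ _ hxy hyx
    · rintro x y z (⟨rfl, hz⟩ | hxz) (⟨h1, hz'⟩ | hyz)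
      · exact Or.inl (Or.inl ⟨rfl, h1 ▸ hv⟩)
      · exact Or.inl (Or.inl ⟨rfl, hS _ (hF.mem _ _ hyz).1⟩)
      · exact Or.inr (Or.inl ⟨h1, hS _ (hF.mem _ _ hxz).1⟩)
      · rcases hF.chain _ _ _ hxz hyz with h2 | h2
        · exact Or.inl (Or.inr h2)
        · exact Or.inr (Or.inr h2)
    · intro x hx y hy hxy
      by_cases hxv : x = v
      · exact Or.inl (Or.inl ⟨hxv, hy⟩)
      by_cases hyv : y = v
      · exact Or.inr (Or.inl ⟨hyv, hx⟩)
      rcases hF.adj x (Finset.mem_erase.2 ⟨hxv, hx⟩) y (Finset.mem_erase.2 ⟨hyv, hy⟩) hxy with h2 | h2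
      · exact Or.inl (Or.inr h2)
      · exact Or.inr (Or.inr h2)
    · intro y hy
      by_cases hyv : y = v
      · have e : {u | (u = v ∧ y ∈ S) ∨ le' u y} = {v} := by
          ext u
          simp only [Set.mem_ofPred_eq, Set.mem_singleton_iff]
          constructor
          · rintro (⟨h1, -⟩ | h1)
            · exact h1
            · exact absurd h1 (hyv ▸ hnv u)
          · intro h1
            exact Or.inl ⟨h1, hy⟩
        rw [e, Set.ncard_singleton, hyv]
        exact hpos
      · have hye : y ∈ S.erase v := Finset.mem_erase.2 ⟨hyv, hy⟩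
        have h1 := hc y hye
        have h2 : 0 < {u | le' u y}.ncard :=
          (Set.ncard_pos (hF.finite y)).2 ⟨y, hF.refl y hye⟩
        have e : {u | (u = v ∧ y ∈ S) ∨ le' u y} = insert v {u | le' u y} := by
          ext u
          simp only [Set.mem_ofPred_eq, Set.mem_insert_iff]
          constructor
          · rintro (⟨h1, -⟩ | h1)
            · exact Or.inl h1
            · exact Or.inr h1
          · rintro (h1 | h1)
            · exact Or.inl ⟨h1, hy⟩
            · exact Or.inr h1
        rw [e]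
        have h3 := Set.ncard_insert_le v {u | le' u y}
        simp only at h1
        omega
  | spl β A B hd hn hA hB ihA ihB =>
    obtain ⟨a, hFa, ha⟩ := ihA
    obtain ⟨b, hFb, hb⟩ := ihB
    have hdis : ∀ x, x ∈ A → x ∈ B → False := fun x h1 h2 =>
      (Finset.disjoint_left.1 hd h1) h2
    refine ⟨fun x y => a x y ∨ b x y, ⟨?_, ?_, ?_, ?_, ?_, ?_⟩, ?_⟩
    · rintro x y (h | h)
      · exact ⟨Finset.mem_union_left _ (hFa.mem _ _ h).1, Finset.mem_union_left _ (hFa.mem _ _ h).2⟩
      · exact ⟨Finset.mem_union_right _ (hFb.mem _ _ h).1, Finset.mem_union_right _ (hFb.mem _ _ h).2⟩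
    · intro x hx
      rcases Finset.mem_union.1 hx with h | h
      · exact Or.inl (hFa.refl x h)
      · exact Or.inr (hFb.refl x h)
    · rintro x y z (h | h) (h' | h')
      · exact Or.inl (hFa.trans _ _ _ h h')
      · exact (hdis y (hFa.mem _ _ h).2 (hFb.mem _ _ h').1).elim
      · exact (hdis y (hFa.mem _ _ h').1 (hFb.mem _ _ h).2).elim
      · exact Or.inr (hFb.trans _ _ _ h h')
    · rintro x y (h | h) (h' | h')
      · exact hFa.antisymm _ _ h h'
      · exact (hdis y (hFa.mem _ _ h).2 (hFb.mem _ _ h').1).elim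
      · exact (hdis y (hFa.mem _ _ h').1 (hFb.mem _ _ h).2).elim
      · exact hFb.antisymm _ _ h h'
    · rintro x y z (h | h) (h' | h')
      · rcases hFa.chain _ _ _ h h' with h2 | h2
        · exact Or.inl (Or.inl h2)
        · exact Or.inr (Or.inl h2)
      · exact (hdis z (hFa.mem _ _ h).2 (hFb.mem _ _ h').2).elim
      · exact (hdis z (hFa.mem _ _ h').2 (hFb.mem _ _ h).2).elim
      · rcases hFb.chain _ _ _ h h' with h2 | h2
        · exact Or.inl (Or.inr h2)
        · exact Or.inr (Or.inr h2)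
    · intro x hx y hy hxy
      rcases Finset.mem_union.1 hx with h | h <;> rcases Finset.mem_union.1 hy with h' | h'
      · rcases hFa.adj x h y h' hxy with h2 | h2
        · exact Or.inl (Or.inl h2)
        · exact Or.inr (Or.inl h2)
      · exact (hn x h y h' hxy).elim
      · exact (hn y h' x h hxy.symm).elim
      · rcases hFb.adj x h y h' hxy with h2 | h2
        · exact Or.inl (Or.inr h2)
        · exact Or.inr (Or.inr h2)
    · intro y hy
      rcases Finset.mem_union.1 hy with h | h
      · have e : {u | a u y ∨ b u y} = {u | a u y} := by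
          ext u
          simp only [Set.mem_ofPred_eq]
          exact ⟨fun h' => h'.resolve_right fun h2 => hdis y h (hFb.mem _ _ h2).2, Or.inl⟩
        rw [e]
        exact ha y h
      · have e : {u | a u y ∨ b u y} = {u | b u y} := by
          ext u
          simp only [Set.mem_ofPred_eq]
          exact ⟨fun h' => h'.resolve_left fun h2 => hdis y (hFa.mem _ _ h2).2 h, Or.inr⟩
        rw [e]
        exact hb y h

variable [Fintype V]

/-- elimination forests with local depths -/
theorem local_forest {k : ℕ} (hk : 1 ≤ k) (h2 : td₂ G Finset.univ ≤ k) (r : V → ℕ)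
    (hr : ∀ (n : ℕ) (f : SimpleGraph.pathGraph (n + 1) ↪g G), n ≤ r (f 0) + r (f (Fin.last n))) :
    (∃ le : V → V → Prop, Forest G Finset.univ le ∧
      ∀ v, {u | le u v}.ncard ≤ (r v + k - 1).choose (k - 1)) ∧
    ∀ m : ℕ, (∀ v, r v ≤ m) → td G Finset.univ ≤ (m + k - 1).choose (k - 1) := by
  obtain ⟨κ, rfl⟩ : ∃ κ, k = κ + 1 := ⟨k - 1, by omega⟩
  have hT := T2_of_td₂ (G := G) _ _ h2
  have hP : PC G Finset.univ r := by
    intro a b n hp
    obtain ⟨f, h0, h1⟩ := IP_emb hp
    have := hr n f
    rwa [h0, h1] at this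
  have hE := UU_all (G := G) κ Finset.univ _ hT hP
  constructor
  · obtain ⟨le, hF, hc⟩ := exists_forest hE
    refine ⟨le, hF, fun v => (hc v (Finset.mem_univ v)).trans (le_of_eq ?_)⟩
    show Phi κ (r v) = _
    unfold Phi
    rw [show r v + (κ + 1) - 1 = r v + κ by omega, show κ + 1 - 1 = κ by omega]
  · intro m hm
    have h := td_le_of_forall (G := G) (S := Finset.univ) (n := Phi κ m) (fun C hC hCC =>
      td_le_of_El hE _ (fun v _ => Phi_mono κ (hm v)) C hC hCC)
    refine h.trans (le_of_eq ?_)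
    unfold Phi
    rw [show m + (κ + 1) - 1 = m + κ by omega, show κ + 1 - 1 = κ by omega]

end Pool.Agent.KS6_98.TDw
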